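import Pool.Agent.Y291.PA.Final

/-!
# Most discs have a bounded doubling index on tori whose metric is analytic in one variable

The weak type estimate of helper291 (`Pool.Agent.Y291.PA.Final`) for coverings without conditions
on the number of discs.
-/

set_option autoImplicit false

open MeasureTheory Real

namespace Pool.Agent.Y262.HD

open Pool.Agent.Y291.DB Pool.Agent.Y291.PA

/-- separated points of a circle -/
theorem key {N : ℕ} {P R : ℝ} (hP : 0 < P) (hN : 0 < N) (h : 2 * R < P / N) {a b : ℕ} (ha : a < N)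
    (hb : b < N) {z : ℤ} (hz : |(a : ℝ) * (P / N) - b * (P / N) + z * P| ≤ 2 * R) :
    a = b ∧ z = 0 := by
  have hN' : (0 : ℝ) < N := by exact_mod_cast hN
  have h1 : (a : ℝ) * (P / N) - b * (P / N) + z * P = (((a : ℤ) - b + z * N : ℤ) : ℝ) * (P / N) := by
    push_cast
    field_simp
  have hPN : 0 < P / N := by positivity
  rw [h1, abs_mul, abs_of_pos hPN] at hz
  have h2 : |(((a : ℤ) - b + z * N : ℤ) : ℝ)| < 1 := by
    by_contra hcon
    rw [not_lt] at hcon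
    nlinarith
  have h3 : (a : ℤ) - b + z * N = 0 := by
    have h4 : |((a : ℤ) - b + z * N : ℤ)| < 1 := by
      exact_mod_cast h2
    exact Int.abs_lt_one_iff.1 h4
  have hz0 : z = 0 := by
    by_contra hne
    have h5 : 1 ≤ |z| := Int.one_le_abs hne
    have h6 : |z * N| = |(b : ℤ) - a| := by
      congr 1
      linarith
    rw [abs_mul, Nat.abs_cast] at h6
    have h7 : |(b : ℤ) - a| < N := by
      rw [abs_lt]
      constructor <;> omega
    have h8 : (N : ℤ) ≤ |z| * N := by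
      have : (0 : ℤ) < N := by exact_mod_cast hN
      nlinarith
    omega
  refine ⟨?_, hz0⟩
  rw [hz0] at h3
  omega

/-- a covering by discs of radius `A / √lam` has at least `c (1 + lam)` members -/
theorem card_lower {ρ : ℝ × ℝ → ℝ} {L α ρm A : ℝ} (hL : 0 < L) (hρ0 : 0 < ρm)
    (hρm : ∀ p, ρm ≤ ρ p) (hρc : Continuous ρ) (hA : 0 < A) :
    ∃ C' : ℝ, 0 < C' ∧ ∀ lam : ℝ, 0 < lam → ∀ (ι : Type) [Fintype ι] (c : ι → ℝ × ℝ),
      (∀ q, ∃ i, q ∈ disc ρ L α (c i) (A / Real.sqrt lam)) → 1 + lam ≤ C' * Fintype.card ι := by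
  have hs : 0 < Real.sqrt ρm := Real.sqrt_pos.2 hρ0
  set B : ℝ := A / Real.sqrt ρm with hB
  have hB0 : 0 < B := by positivity
  set l0 : ℝ := (4 * B / L) ^ 2 + (2 * B / π) ^ 2 with hl0
  have hl00 : 0 ≤ l0 := by positivity
  refine ⟨1 + l0 + 8 * B ^ 2 / (L * π), by positivity, fun lam hlam ι _ c hcov => ?_⟩
  have hcard : (1 : ℝ) ≤ Fintype.card ι := by
    obtain ⟨i, -⟩ := hcov (0, 0)
    have : 0 < Fintype.card ι := Fintype.card_pos_iff.2 ⟨i⟩
    exact_mod_cast this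
  have hsl : 0 < Real.sqrt lam := Real.sqrt_pos.2 hlam
  have hsq : Real.sqrt lam ^ 2 = lam := Real.sq_sqrt hlam.le
  have hlast : 0 ≤ 8 * B ^ 2 / (L * π) := by positivity
  by_cases hbig : 2 ≤ L * Real.sqrt lam / (2 * B) ∧ 2 ≤ π * Real.sqrt lam / B
  · obtain ⟨hx2, hy2⟩ := hbig
    set x : ℝ := L * Real.sqrt lam / (2 * B) with hx
    set y : ℝ := π * Real.sqrt lam / B with hy
    set R : ℝ := A / Real.sqrt lam / Real.sqrt ρm with hR
    have hR' : R = B / Real.sqrt lam := by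
      rw [hR, hB]
      field_simp
    -- the numbers of the points
    have hnat : ∀ v : ℝ, 2 ≤ v → ∃ n : ℕ, 0 < n ∧ (n : ℝ) < v ∧ v / 2 ≤ n := by
      intro v hv
      have h1 := Nat.le_ceil v
      have h2 := Nat.ceil_lt_add_one (by linarith : 0 ≤ v)
      have h3 : 1 ≤ ⌈v⌉₊ := by
        rw [Nat.one_le_ceil_iff]
        linarith
      refine ⟨⌈v⌉₊ - 1, ?_, ?_, ?_⟩
      · have : 2 ≤ ⌈v⌉₊ := by
          have : (2 : ℝ) ≤ ⌈v⌉₊ := hv.trans h1
          exact_mod_cast this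
        omega
      · rw [Nat.cast_sub h3]
        push_cast
        linarith
      · rw [Nat.cast_sub h3]
        push_cast
        linarith
    obtain ⟨n1, hn1, hn1x, hxn1⟩ := hnat x hx2
    obtain ⟨n2, hn2, hn2y, hyn2⟩ := hnat y hy2
    have hn1' : (0 : ℝ) < n1 := by exact_mod_cast hn1
    have hn2' : (0 : ℝ) < n2 := by exact_mod_cast hn2
    have hs1 : 2 * R < L / n1 := by
      rw [hR', lt_div_iff₀ hn1']
      rw [hx, lt_div_iff₀ (by positivity)] at hn1x
      have : 2 * (B / Real.sqrt lam) * n1 = (n1 * (2 * B)) / Real.sqrt lam := by ring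
      rw [this, div_lt_iff₀ hsl]
      exact hn1x
    have hs2 : 2 * R < 2 * π / n2 := by
      rw [hR', lt_div_iff₀ hn2']
      rw [hy, lt_div_iff₀ hB0] at hn2y
      have : 2 * (B / Real.sqrt lam) * n2 = (2 * (n2 * B)) / Real.sqrt lam := by ring
      rw [this, div_lt_iff₀ hsl]
      linarith
    choose f hf using fun p : Fin n1 × Fin n2 =>
      hcov ((p.1 : ℕ) * (L / n1), (p.2 : ℕ) * (2 * π / n2))
    have hinj : Function.Injective f := by
      intro p p' hpp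
      have h1 := hf p
      have h2 := hf p'
      rw [← hpp] at h2
      obtain ⟨m, n, ha, hb⟩ := gdist_lt hρ0 hρm hρc h1
      obtain ⟨m', n', ha', hb'⟩ := gdist_lt hρ0 hρm hρc h2
      simp only at ha hb ha' hb'
      have e1 : |((p.1 : ℕ) : ℝ) * (L / n1) - ((p'.1 : ℕ) : ℝ) * (L / n1) + ((m - m' : ℤ) : ℝ) * L|
          ≤ 2 * R := by
        have := abs_sub (((p.1 : ℕ) : ℝ) * (L / n1) + m * L - (c (f p)).1)
          (((p'.1 : ℕ) : ℝ) * (L / n1) + m' * L - (c (f p)).1)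
        have e : ((p.1 : ℕ) : ℝ) * (L / n1) - ((p'.1 : ℕ) : ℝ) * (L / n1) + ((m - m' : ℤ) : ℝ) * L =
            (((p.1 : ℕ) : ℝ) * (L / n1) + m * L - (c (f p)).1) -
              (((p'.1 : ℕ) : ℝ) * (L / n1) + m' * L - (c (f p)).1) := by
          push_cast
          ring
        rw [e]
        refine this.trans ?_
        linarith
      obtain ⟨h3, h4⟩ := key hL hn1 hs1 p.1.2 p'.1.2 e1
      have hmm : m = m' := by linarith
      subst hmm
      have e2 : |((p.2 : ℕ) : ℝ) * (2 * π / n2) - ((p'.2 : ℕ) : ℝ) * (2 * π / n2) +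
          ((n - n' : ℤ) : ℝ) * (2 * π)| ≤ 2 * R := by
        have := abs_sub (((p.2 : ℕ) : ℝ) * (2 * π / n2) + m * α + n * (2 * π) - (c (f p)).2)
          (((p'.2 : ℕ) : ℝ) * (2 * π / n2) + m * α + n' * (2 * π) - (c (f p)).2)
        have e : ((p.2 : ℕ) : ℝ) * (2 * π / n2) - ((p'.2 : ℕ) : ℝ) * (2 * π / n2) +
            ((n - n' : ℤ) : ℝ) * (2 * π) =
            (((p.2 : ℕ) : ℝ) * (2 * π / n2) + m * α + n * (2 * π) - (c (f p)).2) -
              (((p'.2 : ℕ) : ℝ) * (2 * π / n2) + m * α + n' * (2 * π) - (c (f p)).2) := by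
          push_cast
          ring
        rw [e]
        refine this.trans ?_
        linarith
      obtain ⟨h5, -⟩ := key (by positivity) hn2 hs2 p.2.2 p'.2.2 e2
      exact Prod.ext (Fin.ext h3) (Fin.ext h5)
    have hc1 := Fintype.card_le_of_injective f hinj
    rw [Fintype.card_prod, Fintype.card_fin, Fintype.card_fin] at hc1
    have hc2 : (n1 : ℝ) * n2 ≤ Fintype.card ι := by exact_mod_cast hc1
    have hxy : x * y / 4 ≤ Fintype.card ι := by
      refine le_trans ?_ hc2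
      have hx0 : 0 ≤ x / 2 := by linarith
      have hy0 : 0 ≤ y / 2 := by linarith
      calc x * y / 4 = (x / 2) * (y / 2) := by ring
        _ ≤ n1 * n2 := mul_le_mul hxn1 hyn2 hy0 hn1'.le
    have hxy2 : x * y = L * π * lam / (2 * B ^ 2) := by
      have e : x * y = L * π * (Real.sqrt lam ^ 2) / (2 * B ^ 2) := by
        rw [hx, hy]
        field_simp
      rw [e, hsq]
    have hlamle : lam ≤ 8 * B ^ 2 / (L * π) * Fintype.card ι := by
      have h1 : lam = 8 * B ^ 2 / (L * π) * (x * y / 4) := by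
        rw [hxy2]
        field_simp
        ring
      rw [h1]
      exact mul_le_mul_of_nonneg_left hxy hlast
    nlinarith
  · have hlam0 : lam ≤ l0 := by
      rw [not_and_or, not_le, not_le] at hbig
      rcases hbig with h | h
      · rw [div_lt_iff₀ (by positivity)] at h
        have h1 : Real.sqrt lam ≤ 4 * B / L := by
          rw [le_div_iff₀ hL]
          linarith
        have h2 : lam ≤ (4 * B / L) ^ 2 := by
          rw [← hsq]
          gcongr
        have h3 : 0 ≤ (2 * B / π) ^ 2 := by positivity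
        linarith
      · rw [div_lt_iff₀ hB0] at h
        have h1 : Real.sqrt lam ≤ 2 * B / π := by
          rw [le_div_iff₀ Real.pi_pos]
          linarith
        have h2 : lam ≤ (2 * B / π) ^ 2 := by
          rw [← hsq]
          gcongr
        have h3 : 0 ≤ (4 * B / L) ^ 2 := by positivity
        linarith
    nlinarith

/-- coverings by discs of radius `A / √lam` whose centers are zeros of `φ` -/
structure Covering (ρ : ℝ × ℝ → ℝ) (L α lam : ℝ) (φ : ℝ × ℝ → ℝ) (A C₁ : ℝ) {ι : Type} [Fintype ι]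
    (c : ι → ℝ × ℝ) : Prop where
  cover : ∀ q : ℝ × ℝ, ∃ i, q ∈ disc ρ L α (c i) (A / Real.sqrt lam)
  mult : ∀ q : ℝ × ℝ, ({i | q ∈ disc ρ L α (c i) (A / Real.sqrt lam)}.ncard : ℝ) ≤ C₁
  zero : ∀ i, φ (c i) = 0

/-- The weak type estimate. -/
theorem weak {ρ : ℝ × ℝ → ℝ} {L α : ℝ} (hL : 0 < L) (hρc : Continuous ρ) (hρpos : ∀ p, 0 < ρ p)
    (hρx : ∀ p : ℝ × ℝ, ρ (p.1 + L, p.2 + α) = ρ p)
    (hρy : ∀ p : ℝ × ℝ, ρ (p.1, p.2 + 2 * π) = ρ p) (hρa : AnalyticInSecond ρ)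
    {C C₁ : ℝ} (hC : 0 < C) (hC1 : 0 < C₁) :
    ∃ a : ℝ, 0 < a ∧ ∀ (lam : ℝ) (φ : ℝ × ℝ → ℝ), Eigen ρ L α lam φ →
      ∀ (ι : Type) [Fintype ι] (c : ι → ℝ × ℝ), Covering ρ L α lam φ C C₁ c →
        ∀ t : ℝ, 0 < t → (({i | t ≤ doubling ρ L α φ (c i) (C / Real.sqrt lam)}.ncard : ℕ) : ℝ) ≤
          a / t * Fintype.card ι := by
  obtain ⟨τ, M, F, hτ, hF⟩ := hρa
  obtain ⟨ρm, hρm0, hρm⟩ := bounded_below_of_per hL hρc hρpos hρx hρy
  obtain ⟨ρM, hρM0', hρM'⟩ := bounded_of_per hL hρc hρx hρy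
  have hρM : ∀ p, ρ p ≤ ρM := fun p => (le_abs_self _).trans (hρM' p)
  have hρM0 : 0 < ρM := (hρpos (0, 0)).trans_le (hρM _)
  have hM0 : 0 ≤ M := (norm_nonneg _).trans ((hF 0).2.1 0 (by simpa using hτ))
  obtain ⟨σ, hσ, hσ1, hστ⟩ : ∃ σ : ℝ, 0 < σ ∧ σ ≤ 1 ∧ 4 * σ ≤ τ / 2 := by
    refine ⟨min 1 (τ / 8), lt_min one_pos (by positivity), min_le_left _ _, ?_⟩
    have := min_le_right 1 (τ / 8)
    linarith
  have hdec : ∀ (k : ℤ) (x : ℝ), ‖um (fun x y => ρ (x, y)) k x‖ ≤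
      M * Real.exp (-(4 * σ * |(k : ℝ)|)) := by
    intro k x
    refine (um_decay (ρ := fun x y => ρ (x, y)) hτ (hF x).1 (hF x).2.1 (hF x).2.2
      (fun y => hρy (x, y)) k).trans ?_
    refine mul_le_mul_of_nonneg_left (Real.exp_le_exp.2 ?_) hM0
    nlinarith [abs_nonneg (k : ℝ)]
  obtain ⟨c1, cQ, hc1, hcQ, hctx⟩ := ctx_of_eigen (α := α) hL hρc hρy (fun p => (hρpos p).le) hρM
    hρM0 hσ hσ1 hM0 hdec
  have hsM : 0 < Real.sqrt ρM := Real.sqrt_pos.2 hρM0
  obtain ⟨β, hβ, hβσ, hβC⟩ : ∃ β : ℝ, 0 < β ∧ β ≤ σ / 32 ∧ 8 * β * Real.sqrt ρM ≤ C := by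
    refine ⟨min (σ / 32) (C / (8 * Real.sqrt ρM)), lt_min (by positivity) (by positivity),
      min_le_left _ _, ?_⟩
    have h1 := min_le_right (σ / 32) (C / (8 * Real.sqrt ρM))
    calc 8 * min (σ / 32) (C / (8 * Real.sqrt ρM)) * Real.sqrt ρM
        ≤ 8 * (C / (8 * Real.sqrt ρM)) * Real.sqrt ρM := by gcongr
      _ = C := by
          field_simp
  have hA : 0 ≤ 6 * C / Real.sqrt ρm + 3 * L + 6 * π := by positivity
  obtain ⟨E, D, W, G, hE, hD, hW, hG, hgr⟩ := growth (L := L) (σ := σ) (c1 := c1) (cQ := cQ)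
    (ρM := ρM) (β := β) (A := 6 * C / Real.sqrt ρm + 3 * L + 6 * π) hL hσ hσ1 hc1 hcQ hρM0.le hβ
    hβσ hA
  obtain ⟨C', hC'0, hcard⟩ := card_lower (α := α) hL hρm0 hρm hρc hC
  have hlog : 0 < Real.log 2 := Real.log_pos one_lt_two
  set a1 : ℝ := (L + 2) * C₁ * W * (2 * D) * C' / (β ^ 2 * Real.log 2) with ha1
  set T0 : ℝ := 2 * E / Real.log 2 with hT0
  have ha10 : 0 ≤ a1 := by positivity
  have hT00 : 0 ≤ T0 := by positivity
  refine ⟨a1 + T0 + 1, by positivity, fun lam φ hφ ι _ c hc t ht => ?_⟩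
  have hlam := hφ.pos
  have hcl := hcard lam hlam ι c hc.cover
  have hcard1 : (1 : ℝ) ≤ Fintype.card ι := by
    obtain ⟨i, -⟩ := hc.cover (0, 0)
    have : 0 < Fintype.card ι := Fintype.card_pos_iff.2 ⟨i⟩
    exact_mod_cast this
  have hcard0 : (0 : ℝ) < Fintype.card ι := by linarith
  obtain ⟨φx, φxx, φy, φyy, hsol⟩ := sol_of_eigen hρc hφ
  obtain ⟨B, hB⟩ := hctx lam φ φx φxx φy φyy hφ hsol
  obtain ⟨Gr, hGr⟩ := hgr lam B _ _ φx φxx φy φyy _ hφ.pos hB hsol fun x y =>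
    mul_le_mul_of_nonneg_left (hρM _) hφ.pos.le
  have hadm : Admissible ρ L α lam φ C C₁
      (lam / Fintype.card ι + Fintype.card ι / lam) c := by
    refine ⟨hc.cover, ?_, ?_, hc.mult, hc.zero⟩
    · rw [inv_mul_le_iff₀ (by positivity), add_mul, div_mul_cancel₀ _ hcard0.ne']
      have : 0 ≤ (Fintype.card ι : ℝ) / lam * Fintype.card ι := by positivity
      linarith
    · rw [add_mul, div_mul_cancel₀ _ hlam.ne']
      have : 0 ≤ lam / (Fintype.card ι : ℝ) * lam := by positivity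
      linarith
  rcases le_or_gt (2 * E) (t * Real.log 2) with h | h
  · refine (count hL hρc hρx hρy hρm0 hρm hρM hC hβ (by linarith) hβC le_rfl hφ hD hW hGr hC1 hadm
      ht h).trans ?_
    calc (L + 2) * C₁ * W * (2 * D) * (1 + lam) / (β ^ 2 * (t * Real.log 2))
        ≤ (L + 2) * C₁ * W * (2 * D) * (C' * Fintype.card ι) /
          (β ^ 2 * (t * Real.log 2)) := by gcongr
      _ = a1 / t * Fintype.card ι := by
          rw [ha1]
          field_simp
      _ ≤ (a1 + T0 + 1) / t * Fintype.card ι := by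
          gcongr
          linarith
  · have h1 : (({i | t ≤ doubling ρ L α φ (c i) (C / Real.sqrt lam)}.ncard : ℕ) : ℝ) ≤
        Fintype.card ι := by
      have := Set.ncard_le_card {i | t ≤ doubling ρ L α φ (c i) (C / Real.sqrt lam)}
      rw [Nat.card_eq_fintype_card] at this
      exact_mod_cast this
    have h2 : 1 ≤ (a1 + T0 + 1) / t := by
      rw [le_div_iff₀ ht, one_mul]
      have : t < T0 := by
        rw [hT0, lt_div_iff₀ hlog]
        exact h
      linarith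
    nlinarith

/-- At least half of the discs have a bounded doubling index. -/
theorem half {ρ : ℝ × ℝ → ℝ} {L α : ℝ} (hL : 0 < L) (hρc : Continuous ρ) (hρpos : ∀ p, 0 < ρ p)
    (hρx : ∀ p : ℝ × ℝ, ρ (p.1 + L, p.2 + α) = ρ p)
    (hρy : ∀ p : ℝ × ℝ, ρ (p.1, p.2 + 2 * π) = ρ p) (hρa : AnalyticInSecond ρ)
    {A C₁ : ℝ} (hA : 0 < A) (hC1 : 0 < C₁) (δ : ℝ) (hδ : 0 < δ) :
    ∃ K : ℝ, 0 < K ∧ ∀ (lam : ℝ) (φ : ℝ × ℝ → ℝ), Eigen ρ L α lam φ →
      ∀ (ι : Type) [Fintype ι] (c : ι → ℝ × ℝ), Covering ρ L α lam φ A C₁ c →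
        (1 - δ) * Fintype.card ι ≤
          (({i | doubling ρ L α φ (c i) (A / Real.sqrt lam) ≤ K}.ncard : ℕ) : ℝ) := by
  obtain ⟨a, ha, h⟩ := weak hL hρc hρpos hρx hρy hρa hA hC1
  refine ⟨a / δ, by positivity, fun lam φ hφ ι _ c hc => ?_⟩
  have h1 := h lam φ hφ ι c hc (a / δ) (by positivity)
  have h2 : a / (a / δ) = δ := by field_simp
  rw [h2] at h1
  have h3 : Fintype.card ι ≤ {i | doubling ρ L α φ (c i) (A / Real.sqrt lam) ≤ a / δ}.ncard +
      {i | a / δ ≤ doubling ρ L α φ (c i) (A / Real.sqrt lam)}.ncard := by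
    have h4 : (Set.univ : Set ι) ⊆ {i | doubling ρ L α φ (c i) (A / Real.sqrt lam) ≤ a / δ} ∪
        {i | a / δ ≤ doubling ρ L α φ (c i) (A / Real.sqrt lam)} := by
      intro i _
      exact le_total (doubling ρ L α φ (c i) (A / Real.sqrt lam)) (a / δ)
    have h5 := Set.ncard_le_ncard h4 (Set.toFinite _)
    rw [Set.ncard_univ, Nat.card_eq_fintype_card] at h5
    exact h5.trans (Set.ncard_union_le _ _)
  have h6 : (Fintype.card ι : ℝ) ≤
      (({i | doubling ρ L α φ (c i) (A / Real.sqrt lam) ≤ a / δ}.ncard : ℕ) : ℝ) +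
      (({i | a / δ ≤ doubling ρ L α φ (c i) (A / Real.sqrt lam)}.ncard : ℕ) : ℝ) := by
    exact_mod_cast h3
  linarith

end Pool.Agent.Y262.HD
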